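import Pool.Agent.H268Z.Large

set_option autoImplicit false

open scoped Pointwise

namespace Pool.Agent.Results.MP_e349a0_al.AlephOneLarge

universe u

/-- Every infinite group `G` has a partition into `|G|` (nonempty) cells, each of which is left and
right `ℵ₁`-large. -/
theorem result (G : Type u) [Group G] [Infinite G] :
    ∃ P : Set (Set G), Setoid.IsPartition P ∧ Cardinal.mk P = Cardinal.mk G ∧ ∀ A ∈ P,
      (∃ F : Set G, Cardinal.mk F < Cardinal.aleph 1 ∧ F * A = Set.univ) ∧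
      (∃ F : Set G, Cardinal.mk F < Cardinal.aleph 1 ∧ A * F = Set.univ) := by
  obtain ⟨P, h1, h2, h3⟩ := Pool.Agent.H268Z.Large.part_countable G (Cardinal.mk G)
    (Cardinal.aleph0_le_mk G) le_rfl
  refine ⟨P, h1, h2, fun A hA => ?_⟩
  obtain ⟨⟨F, hF, h4⟩, F', hF', h5⟩ := h3 A hA
  exact ⟨⟨F, (Cardinal.le_aleph0_iff_set_countable.2 hF).trans_lt Cardinal.aleph0_lt_aleph_one, h4⟩,
    F', (Cardinal.le_aleph0_iff_set_countable.2 hF').trans_lt Cardinal.aleph0_lt_aleph_one, h5⟩

end Pool.Agent.Results.MP_e349a0_al.AlephOneLarge
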